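import Pool.Agent.X165.LN1

/-!
# Isospectral non-isometric lens spaces with `n ≡ -1` modulo `φ(q)/2`

`MP_1b0b4e_gt`, Q1, asks whether there are two `(2n-1)`-dimensional lens spaces with fundamental
group of order `q`, `n ≡ -1 (mod φ(q)/2)`, that are isospectral but not isometric.  Yes: `q = 25`,
`φ(q)/2 = 10`, `n = 19` and

`L(25; 2,2,2,3,3,4,6,6,7,7,7,8,8,9,9,11,11,12,12)`,
`L(25; 1,2,3,3,4,4,4,6,6,6,7,8,9,9,9,11,11,12,12)`.

Isospectrality is stated, as in the file `HighestVolume` for `MP_13d552_gt`, by the dimensions of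
the spaces of invariant harmonic homogeneous polynomials of each degree: the dimension in degree `k`
is the multiplicity of the eigenvalue `k (k + 2n - 2)` of the Laplacian of the lens space, and these
are all eigenvalues.  Lens spaces are isometric iff their groups are conjugate in `O(2n)`.

The isospectrality is proved by the method of Ikeda (generating functions), with the certificate
`cert25` that was found by the authors of `Pool/Agent/Helper477/Sph`.
-/

set_option autoImplicit false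

namespace Pool.Agent.Results.MP_1b0b4e_gt.OrderTwentyFive

open Pool.Agent.Helper477 Pool.Agent.Helper477.Sph Pool.Agent.Helper477.HarmInv Pool.Agent.X165.LN

/-- The dimension of the space of `Γ`-invariant harmonic homogeneous polynomials of degree `k` on
`ℝ^N`, i.e. the multiplicity of the eigenvalue `k (k + N - 2)` of the Laplacian on the quotient of
the unit sphere by `Γ`. -/
noncomputable def multiplicity {N : ℕ} (Γ : Subgroup (Matrix.orthogonalGroup (Fin N) ℝ))
    (k : ℕ) : ℕ :=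
  Module.finrank ℝ ↥(MvPolynomial.homogeneousSubmodule (Fin N) ℝ k ⊓
    LinearMap.ker (∑ i : Fin N,
      (MvPolynomial.pderiv i).toLinearMap ∘ₗ (MvPolynomial.pderiv i).toLinearMap) ⊓
    ⨅ g ∈ Γ, LinearMap.ker ((MvPolynomial.aeval (fun i : Fin N =>
      ∑ j : Fin N, MvPolynomial.C (g.1 i j) * MvPolynomial.X j)).toLinearMap
        - LinearMap.id))

/-- The two quotients of the sphere have the same Laplace spectrum with multiplicities. -/
def Isospectral {N : ℕ} (Γ₁ Γ₂ : Subgroup (Matrix.orthogonalGroup (Fin N) ℝ)) : Prop :=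
  ∀ k : ℕ, multiplicity Γ₁ k = multiplicity Γ₂ k

/-- The two quotients of the sphere are isometric: the groups are conjugate in `O(N)`. -/
def Isometric {N : ℕ} (Γ₁ Γ₂ : Subgroup (Matrix.orthogonalGroup (Fin N) ℝ)) : Prop :=
  ∃ h : Matrix.orthogonalGroup (Fin N) ℝ, ∀ g, g ∈ Γ₁ ↔ h * g * h⁻¹ ∈ Γ₂

/-- The fundamental group of the lens space `L(q; s)`: generated by the orthogonal transformation
of `ℝ^{2n} = ℂ^n` that rotates the `j`-th coordinate plane by the angle `2 π s_j / q`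
(multiplication of `z_j` by `exp (2 π i s_j / q)`). -/
noncomputable def lensGroup (q : ℕ) {n : ℕ} (s : Fin n → ℤ) :
    Subgroup (Matrix.orthogonalGroup (Fin (2 * n)) ℝ) :=
  Subgroup.zpowers (Lg fun j => 2 * Real.pi * s j / q)

theorem iso_of_hilb {N : ℕ} (hN : 0 < N) (Γ₁ Γ₂ : Subgroup (Matrix.orthogonalGroup (Fin N) ℝ))
    (h : hilb Γ₁ = hilb Γ₂) : Isospectral Γ₁ Γ₂ := by
  have hm : ∀ (Γ : Subgroup (Matrix.orthogonalGroup (Fin N) ℝ)) (k : ℕ), multiplicity Γ k =
      Module.finrank ℝ ↥(MvPolynomial.homogeneousSubmodule (Fin N) ℝ k ⊓ LinearMap.ker (D N) ⊓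
        Inv Γ) := fun Γ k => rfl
  intro k
  rw [hm, hm]
  refine isospectral_of_invariants hN Γ₁ Γ₂ (fun k => ?_) k
  have h1 := congrArg (PowerSeries.coeff k) h
  unfold hilb at h1
  rw [PowerSeries.coeff_mk, PowerSeries.coeff_mk] at h1
  exact_mod_cast h1

/-- the parameters of the first lens space -/
def s₁ : Fin 19 → ℤ := ![2, 2, 2, 3, 3, 4, 6, 6, 7, 7, 7, 8, 8, 9, 9, 11, 11, 12, 12]

/-- the parameters of the second lens space -/
def s₂ : Fin 19 → ℤ := ![1, 2, 3, 3, 4, 4, 4, 6, 6, 6, 7, 8, 9, 9, 9, 11, 11, 12, 12]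

theorem lensGroup_eq (s : Fin 19 → ℤ) (h : ∀ j, (((s j : ZMod 25).val : ℤ)) = s j) :
    lensGroup 25 s = LG (fun j => (s j : ZMod 25)) := by
  rw [lensGroup, LG, lg]
  congr 2
  funext j
  rw [ang]
  have h1 : (((s j : ZMod 25).val : ℝ)) = (s j : ℝ) := by exact_mod_cast congrArg (Int.cast : ℤ → ℝ) (h j)
  rw [h1]

/-- There are isospectral non-isometric lens spaces `L(q; s)`, `L(q; s')` of dimension `2n - 1` with
`n ≡ -1` modulo `φ(q)/2`. -/
theorem result : ∃ (n q : ℕ) (s s' : Fin n → ℤ), 2 ≤ n ∧ 3 ≤ q ∧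
    (n : ℤ) ≡ -1 [ZMOD ((Nat.totient q / 2 : ℕ) : ℤ)] ∧
    (∀ j, IsCoprime (s j) (q : ℤ)) ∧ (∀ j, IsCoprime (s' j) (q : ℤ)) ∧
    Isospectral (lensGroup q s) (lensGroup q s') ∧
    ¬ Isometric (lensGroup q s) (lensGroup q s') := by
  have hv1 : ∀ j, (((s₁ j : ZMod 25).val : ℤ)) = s₁ j := by decide
  have hv2 : ∀ j, (((s₂ j : ZMod 25).val : ℤ)) = s₂ j := by decide
  have hu1 : ∀ j, IsUnit (s₁ j : ZMod 25) := by decide
  have hu2 : ∀ j, IsUnit (s₂ j : ZMod 25) := by decide
  have key := pair_of_cert (q := 25) cert25 (n := 19) (by norm_num)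
    (([2, 2, 2, 3, 3, 4, 6, 6, 7, 7, 7, 8, 8, 9, 9, 11, 11, 12, 12] : List ℕ) : Multiset ℕ)
    (([1, 2, 3, 3, 4, 4, 4, 6, 6, 6, 7, 8, 9, 9, 9, 11, 11, 12, 12] : List ℕ) : Multiset ℕ)
    (fun j => (s₁ j : ZMod 25)) (fun j => (s₂ j : ZMod 25)) (by decide +kernel)
    (by decide +kernel) (by decide +kernel) (by decide +kernel) hu1 hu2
  refine ⟨19, 25, s₁, s₂, by norm_num, by norm_num, ?_, ?_, ?_, ?_, ?_⟩
  · have : Nat.totient 25 = 20 := by decide +kernel
    rw [this]
    decide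
  · decide
  · decide
  · rw [lensGroup_eq _ hv1, lensGroup_eq _ hv2]
    exact iso_of_hilb (by norm_num) _ _ key.1
  · rw [lensGroup_eq _ hv1, lensGroup_eq _ hv2]
    exact key.2

end Pool.Agent.Results.MP_1b0b4e_gt.OrderTwentyFive
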